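import Pool.Agent.Helper49.OWN.SumC0

/-!
# The sum problem for maximally monotone operators

In every real Banach space which contains a complemented copy of `c₀` there are maximally monotone
operators `A`, `B` with `dom A ∩ int dom B ≠ ∅` whose sum is not maximally monotone; `B` can be the
normal cone operator of a closed half space.
-/

set_option autoImplicit false

open scoped ZeroAtInfty

namespace Pool.Agent.Results.MP_826cdb_an.SumTheoremFails

universe u

section Defs

variable {X : Type u} [NormedAddCommGroup X] [NormedSpace ℝ X]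

/-- a set-valued operator from `X` to its dual, given by its graph, is monotone -/
def IsMonotone (A : Set (X × (X →L[ℝ] ℝ))) : Prop :=
  ∀ p ∈ A, ∀ q ∈ A, 0 ≤ (p.2 - q.2) (p.1 - q.1)

/-- monotone, and the graph is not properly contained in the graph of a monotone operator -/
def IsMaximallyMonotone (A : Set (X × (X →L[ℝ] ℝ))) : Prop :=
  IsMonotone A ∧ ∀ A' : Set (X × (X →L[ℝ] ℝ)), IsMonotone A' → A ⊆ A' → A' = A

/-- the domain -/
def dom (A : Set (X × (X →L[ℝ] ℝ))) : Set X := {x | ∃ a, (x, a) ∈ A}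

/-- the sum `(A + B) x = {a + b : a ∈ A x, b ∈ B x}` -/
def opSum (A B : Set (X × (X →L[ℝ] ℝ))) : Set (X × (X →L[ℝ] ℝ)) :=
  {p | ∃ a b, (p.1, a) ∈ A ∧ (p.1, b) ∈ B ∧ p.2 = a + b}

/-- the normal cone operator of a set -/
def normalCone (S : Set X) : Set (X × (X →L[ℝ] ℝ)) := {p | p.1 ∈ S ∧ ∀ y ∈ S, p.2 (y - p.1) ≤ 0}

theorem mem_of_related {A : Set (X × (X →L[ℝ] ℝ))} (hA : IsMaximallyMonotone A)
    {p : X × (X →L[ℝ] ℝ)} (h : ∀ q ∈ A, 0 ≤ (p.2 - q.2) (p.1 - q.1)) : p ∈ A := by
  have h1 : IsMonotone (insert p A) := by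
    intro q hq r hr
    rcases Set.mem_insert_iff.1 hq with hq1 | hq1
    · rcases Set.mem_insert_iff.1 hr with hr1 | hr1
      · rw [hq1, hr1]
        simp
      · rw [hq1]
        exact h r hr1
    · rcases Set.mem_insert_iff.1 hr with hr1 | hr1
      · have h2 := h q hq1
        have h3 : (q.2 - r.2) (q.1 - r.1) = (p.2 - q.2) (p.1 - q.1) := by
          rw [hr1]
          simp only [ContinuousLinearMap.sub_apply, map_sub]
          ring
        rw [h3]
        exact h2
      · exact hA.1 q hq1 r hr1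
  have h2 := hA.2 _ h1 (Set.subset_insert _ _)
  rw [← h2]
  exact Set.mem_insert _ _

theorem max_of_related {A : Set (X × (X →L[ℝ] ℝ))} (hA : IsMonotone A)
    (h : ∀ p : X × (X →L[ℝ] ℝ), (∀ q ∈ A, 0 ≤ (p.2 - q.2) (p.1 - q.1)) → p ∈ A) :
    IsMaximallyMonotone A := by
  refine ⟨hA, fun A' hA' hsub => Set.Subset.antisymm ?_ hsub⟩
  intro p hp
  exact h p fun q hq => hA' p hp q (hsub hq)

theorem normalCone_mono (S : Set X) : IsMonotone (normalCone S) := by
  rintro p ⟨hp, hp'⟩ q ⟨hq, hq'⟩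
  have h1 := hp' q.1 hq
  have h2 := hq' p.1 hp
  have h3 : (p.2 - q.2) (p.1 - q.1) = -(p.2 (q.1 - p.1)) - q.2 (p.1 - q.1) := by
    simp only [ContinuousLinearMap.sub_apply, map_sub]
    ring
  rw [h3]
  linarith

theorem zero_mem_normalCone {S : Set X} {y : X} (hy : y ∈ S) : (y, 0) ∈ normalCone S :=
  ⟨hy, fun z _ => by simp⟩

theorem normalCone_max (f : X →L[ℝ] ℝ) : IsMaximallyMonotone (normalCone {y : X | f y ≤ 0}) := by
  refine max_of_related (normalCone_mono _) fun p hp => ⟨?_, ?_⟩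
  · show f p.1 ≤ 0
    by_contra hne
    push Not at hne
    have h1 : ∀ r : ℝ, 0 ≤ r → r * f p.1 ≤ p.2 p.1 := by
      intro r hr
      have h2 := hp (0, r • f) ⟨by simp, fun y hy => by
        show (r • f) (y - 0) ≤ 0
        rw [sub_zero, ContinuousLinearMap.smul_apply, smul_eq_mul]
        exact mul_nonpos_of_nonneg_of_nonpos hr hy⟩
      simp only [ContinuousLinearMap.sub_apply, sub_zero, ContinuousLinearMap.smul_apply,
        smul_eq_mul] at h2
      linarith
    have h2 := h1 ((|p.2 p.1| + 1) / f p.1) (by positivity)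
    rw [div_mul_cancel₀ _ hne.ne'] at h2
    have := le_abs_self (p.2 p.1)
    linarith
  · intro y hy
    have h1 := hp (y, 0) (zero_mem_normalCone hy)
    simp only [sub_zero] at h1
    have h2 : p.2 (y - p.1) = -(p.2 (p.1 - y)) := by
      simp only [map_sub]
      ring
    rw [h2]
    linarith

theorem zero_of_mem {f : X →L[ℝ] ℝ} {y : X} {b : X →L[ℝ] ℝ}
    (h : (y, b) ∈ normalCone {y : X | f y ≤ 0}) (hy : f y < 0) : b = 0 := by
  have key : ∀ v : X, b v ≤ 0 := by
    intro v
    obtain ⟨t, ht⟩ : ∃ t : ℝ, t = -f y / (|f v| + 1) := ⟨_, rfl⟩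
    have hp : 0 < |f v| + 1 := by positivity
    have ht0 : 0 < t := by
      rw [ht]
      exact div_pos (by linarith) hp
    have h1 := h.2 (y + t • v) (by
      show f (y + t • v) ≤ 0
      rw [map_add, map_smul, smul_eq_mul]
      have h2 : t * (|f v| + 1) = -f y := by
        rw [ht]
        field_simp
      have h3 : t * f v ≤ t * (|f v| + 1) :=
        mul_le_mul_of_nonneg_left (by linarith [le_abs_self (f v)]) ht0.le
      linarith)
    simp only [add_sub_cancel_left, map_smul, smul_eq_mul] at h1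
    by_contra hne
    push Not at hne
    have := mul_pos ht0 hne
    linarith
  ext v
  have h1 := key v
  have h2 := key (-v)
  rw [map_neg] at h2
  show b v = 0
  linarith

theorem opSum_mono {A B : Set (X × (X →L[ℝ] ℝ))} (hA : IsMonotone A) (hB : IsMonotone B) :
    IsMonotone (opSum A B) := by
  rintro p ⟨a, b, ha, hb, hp⟩ q ⟨a', b', ha', hb', hq⟩
  have h1 := hA _ ha _ ha'
  have h2 := hB _ hb _ hb'
  have h3 : (p.2 - q.2) (p.1 - q.1) = (a - a') (p.1 - q.1) + (b - b') (p.1 - q.1) := by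
    rw [hp, hq]
    simp only [ContinuousLinearMap.sub_apply, ContinuousLinearMap.add_apply]
    ring
  rw [h3]
  exact add_nonneg h1 h2

end Defs

open Pool.Agent.Helper71.Sum in
/-- the lift of the counterexample along a projection -/
theorem lift {Y : Type u} [NormedAddCommGroup Y] [NormedSpace ℝ Y]
    (i : Pool.Agent.Helper71.Sum.X →L[ℝ] Y) (P : Y →L[ℝ] Pool.Agent.Helper71.Sum.X)
    (h : ∀ x, P (i x) = x) :
    ∃ (A : Set (Y × (Y →L[ℝ] ℝ))) (f : Y →L[ℝ] ℝ), IsMaximallyMonotone A ∧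
      IsMaximallyMonotone (normalCone {y | f y ≤ 0}) ∧
      (dom A ∩ interior (dom (normalCone {y | f y ≤ 0}))).Nonempty ∧
      ¬ IsMaximallyMonotone (opSum A (normalCone {y | f y ≤ 0})) := by
  obtain ⟨A, hT, hm, hM, hgap⟩ := exists_A
  have hpt1 : ((((0 : C), (0 : C)), (-1 : ℝ)), (-(phi 0 / 2)) • lst) ∈ A :=
    hT (Or.inr ⟨0, _, le_rfl, rfl⟩)
  have hpt2 : (((0 : E), (1 : ℝ)), fsf 0 + (nrm 0 ^ 2 / 4) • lst) ∈ A :=
    hT (Or.inl ⟨0, G.zero_mem, _, le_rfl, rfl⟩)
  obtain ⟨AY, hAY⟩ : ∃ AY : Set (Y × (Y →L[ℝ] ℝ)),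
      AY = {p | ∃ a, (P p.1, a) ∈ A ∧ p.2 = a.comp P} := ⟨_, rfl⟩
  obtain ⟨f, hf⟩ : ∃ f : Y →L[ℝ] ℝ, f = lst.comp P := ⟨_, rfl⟩
  have hfP : ∀ y, f y = (P y).2 := fun y => by rw [hf]; rfl
  have hmono : IsMonotone AY := by
    rw [hAY]
    rintro p ⟨a, ha, hp⟩ q ⟨b, hb, hq⟩
    rw [hp, hq]
    have h1 := hm _ _ _ _ ha hb
    simpa only [ContinuousLinearMap.sub_apply, ContinuousLinearMap.comp_apply, map_sub] using h1
  refine ⟨AY, f, ?_, normalCone_max f, ?_, ?_⟩
  · refine max_of_related hmono fun p hp => ?_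
    have hrel : ∀ (k : Y), P k = 0 → ∀ (x : Pool.Agent.Helper71.Sum.X) a, (x, a) ∈ A →
        0 ≤ (p.2 - a.comp P) (p.1 - (i x + k)) := by
      intro k hk x a ha
      refine hp (i x + k, a.comp P) ?_
      rw [hAY]
      refine ⟨a, ?_, rfl⟩
      show (P (i x + k), a) ∈ A
      rw [map_add, h, hk, add_zero]
      exact ha
    have hker : ∀ k : Y, P k = 0 → p.2 k = 0 := by
      intro k hk
      have h1 : ∀ r : ℝ, r * p.2 k ≤
          (p.2 - ((-(phi 0 / 2)) • lst).comp P) (p.1 - i (((0 : C), (0 : C)), (-1 : ℝ))) := by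
        intro r
        have h2 := hrel (r • k) (by rw [map_smul, hk, smul_zero]) _ _ hpt1
        have h3 : (p.2 - ((-(phi 0 / 2)) • lst).comp P)
            (p.1 - (i (((0 : C), (0 : C)), (-1 : ℝ)) + r • k)) =
            (p.2 - ((-(phi 0 / 2)) • lst).comp P) (p.1 - i (((0 : C), (0 : C)), (-1 : ℝ))) -
              r * p.2 k := by
          rw [← sub_sub, map_sub, ContinuousLinearMap.sub_apply (x := r • k),
            ContinuousLinearMap.comp_apply, map_smul, map_smul, hk]
          simp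
        rw [h3] at h2
        linarith
      by_contra hne
      have h4 := h1 ((|(p.2 - ((-(phi 0 / 2)) • lst).comp P)
        (p.1 - i (((0 : C), (0 : C)), (-1 : ℝ)))| + 1) / p.2 k)
      rw [div_mul_cancel₀ _ hne] at h4
      have := le_abs_self ((p.2 - ((-(phi 0 / 2)) • lst).comp P)
        (p.1 - i (((0 : C), (0 : C)), (-1 : ℝ))))
      linarith
    have hc : p.2 = (p.2.comp i).comp P := by
      ext y
      have h1 := hker (y - i (P y)) (by rw [map_sub, h, sub_self])
      rw [map_sub] at h1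
      show p.2 y = p.2 (i (P y))
      linarith
    rw [hAY]
    refine ⟨p.2.comp i, hM _ _ fun x a ha => ?_, hc⟩
    have h1 := hrel 0 (map_zero P) x a ha
    rw [add_zero] at h1
    have h2 : (p.2.comp i - a) (P p.1 - x) = (p.2 - a.comp P) (p.1 - i x) := by
      have h3 : p.2 p.1 = p.2 (i (P p.1)) := by
        conv_lhs => rw [hc]
        rfl
      simp only [ContinuousLinearMap.sub_apply, ContinuousLinearMap.comp_apply, map_sub, h]
      rw [h3]
    rw [h2]
    exact h1
  · refine ⟨i (((0 : C), (0 : C)), (-1 : ℝ)), ⟨((-(phi 0 / 2)) • lst).comp P, ?_⟩, ?_⟩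
    · rw [hAY]
      refine ⟨_, ?_, rfl⟩
      show (P (i _), _) ∈ A
      rw [h]
      exact hpt1
    · have hopen : IsOpen {y : Y | f y < 0} := isOpen_lt f.continuous continuous_const
      have hsub : {y : Y | f y < 0} ⊆ dom (normalCone {y | f y ≤ 0}) :=
        fun y hy => ⟨0, zero_mem_normalCone (show f y ≤ 0 from le_of_lt hy)⟩
      refine interior_maximal hsub hopen ?_
      show f _ < 0
      rw [hfP, h]
      norm_num
  · intro hS
    have h1 := mem_of_related hS (p := (i ((0 : E), (1 : ℝ)),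
      (fsf 0 + (nrm 0 ^ 2 / 4) • lst).comp P)) (by
      rintro q ⟨a, b, ha, hb, hq⟩
      rw [hAY] at ha
      obtain ⟨a', ha', haa⟩ := ha
      have hq1 : f q.1 ≤ 0 := hb.1
      have hq2 : (P q.1).2 ≤ -1 := by
        rcases hgap _ _ ha' with h2 | h2
        · exact h2
        · rw [hfP] at hq1
          linarith
      have hb0 : b = 0 := zero_of_mem hb (by rw [hfP]; linarith)
      have haa' : a = a'.comp P := haa
      rw [hq, hb0, add_zero, haa']
      have h2 := hm _ _ _ _ hpt2 ha'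
      simpa only [ContinuousLinearMap.sub_apply, ContinuousLinearMap.comp_apply, map_sub, h]
        using h2)
    obtain ⟨a, b, -, hb, -⟩ := h1
    have h2 : f (i ((0 : E), (1 : ℝ))) ≤ 0 := hb.1
    rw [hfP, h] at h2
    norm_num at h2

/-- In every real Banach space `Y` which contains a complemented copy of `c₀`, the sum of a maximally
monotone operator `A` and the (maximally monotone) normal cone operator of a closed half space can
fail to be maximally monotone, although `dom A` meets the interior of the half space. -/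
theorem result {Y : Type u} [NormedAddCommGroup Y] [NormedSpace ℝ Y] [CompleteSpace Y]
    (i : C₀(ℕ, ℝ) →L[ℝ] Y) (P : Y →L[ℝ] C₀(ℕ, ℝ)) (h : ∀ x, P (i x) = x) :
    ∃ (A : Set (Y × (Y →L[ℝ] ℝ))) (f : Y →L[ℝ] ℝ), IsMaximallyMonotone A ∧
      IsMaximallyMonotone (normalCone {y | f y ≤ 0}) ∧
      (dom A ∩ interior (dom (normalCone {y | f y ≤ 0}))).Nonempty ∧
      ¬ IsMaximallyMonotone (opSum A (normalCone {y | f y ≤ 0})) :=
  lift (i.comp Pool.Agent.Helper49.SumC0.jj) (Pool.Agent.Helper49.SumC0.Q.comp P) fun x => by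
    show Pool.Agent.Helper49.SumC0.Q (P (i (Pool.Agent.Helper49.SumC0.jj x))) = x
    rw [h, Pool.Agent.Helper49.SumC0.Q_jj]

end Pool.Agent.Results.MP_826cdb_an.SumTheoremFails
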